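import Mathlib
import Pool.Agent.helper30.OpenMul.Defs
import Pool.Agent.helper30.OpenMul.Main
set_option autoImplicit false
open Set Metric Pool.Agent.helper30.OpenMul

namespace Pool.Agent.Results.MP_64150f_an.UniformlyOpen

open Pointwise in
/-- If `X` is a compact Hausdorff space of covering dimension at most one, multiplication in the
complex Banach algebra `C(X, ℂ)` is uniformly open. -/
theorem result (ε : ℝ) (hε : 0 < ε) : ∃ δ > 0, ∀ (X : Type*) [TopologicalSpace X] [CompactSpace X] [T2Space X],
    CoveringDimLE X 1 → ∀ a b : C(X, ℂ), ball (a * b) δ ⊆ ball a ε * ball b ε := by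
  refine ⟨(ε / 200) ^ 2, by positivity, fun X _ _ _ hX a b h hh => ?_⟩
  have H : ∀ x, ‖h x - a x * b x‖ ≤ (ε / 200) ^ 2 := by
    intro x
    rw [mem_ball] at hh
    have := ContinuousMap.dist_apply_le_dist (f := h) (g := a * b) x
    rw [dist_eq_norm] at this
    simp only [ContinuousMap.mul_apply] at this
    linarith
  obtain ⟨F, G, hF, hG, hFG⟩ := exact_factor hX a b h (ε / 200) (by positivity) H
  rw [← hFG]
  refine Set.mul_mem_mul ?_ ?_
  · rw [mem_ball, dist_comm]; linarith
  · rw [mem_ball, dist_comm]; linarith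

end Pool.Agent.Results.MP_64150f_an.UniformlyOpen
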